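import Pool.Agent.Lib.Flows.Range
import Pool.Agent.P.MP_20b97f_co.Veblen

set_option autoImplicit false

namespace Pool.Agent.Results.MP_20b97f_co.LongRange

open Pool.Agent.P.MP_20b97f_co

/-- For all `k, l ≥ 0` the interval of integers from `32k + 2l + 16` to `40k + 2l + 19` is a good
range for graphs. -/
theorem result (k l : ℕ) :
    GoodRange (Set.Icc (32 * (k : ℤ) + 2 * l + 16) (40 * (k : ℤ) + 2 * l + 19)) := by
  intro V E _ _ _ ends p hp
  classical
  refine ⟨cone_lat_of_intCone, fun h => intCone_of_cov ?_⟩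
  refine Pool.Agent.Flows.MG.range_cov k l _ p (fun X hX => ?_)
    (fun X e f hef hX => lat_two h.2 hef hX) (lat_flow h.2) (fun e => ?_)
  · obtain ⟨e, he⟩ := Finset.card_eq_one.1 hX
    have := lat_one h.2 he
    have := (hp e).1
    omega
  · have := hp e
    rw [Set.mem_Icc] at this
    omega

end Pool.Agent.Results.MP_20b97f_co.LongRange
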