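import Pool.Agent.P.MP_20b97f_co.Asym

set_option autoImplicit false

namespace Pool.Agent.Results.MP_20b97f_co.Margin

open Pool.Agent.P.MP_20b97f_co

/-- For every `A` there is `c₀` such that for all `c ≥ c₀`, all graphs and all weights `p` in the
lattice of circuits with `p ≤ A c` and `p - c` in the cone of circuits, `p` has a circuit cover. -/
theorem result (A : ℕ) : ∃ c₀ : ℕ, ∀ c : ℕ, c₀ ≤ c →
    ∀ (V E : Type) [Fintype V] [Fintype E] [DecidableEq E] (ends : E → Sym2 V) (p : E → ℤ),
      (∀ e, p e ≤ A * c) → InCone ends (fun e => p e - c) → InLat ends p → InIntCone ends p := by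
  obtain ⟨c0, h⟩ := cover_of_cut A
  refine ⟨c0, fun c hc V E _ _ _ ends p hp h1 h2 => ?_⟩
  classical
  exact h c hc V E ends p h2 (fun e => ⟨sub_nonneg.1 (cone_nonneg h1 e), hp e⟩) (cone_cut h1)

end Pool.Agent.Results.MP_20b97f_co.Margin
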