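import Pool.Agent.P.MP_20b97f_co.Asym

set_option autoImplicit false

namespace Pool.Agent.Results.MP_20b97f_co.RatioTwo

open Pool.Agent.P.MP_20b97f_co

/-- The integer intervals `[L, ρ L]` are good ranges for all large `L` exactly when `ρ < 2`. -/
theorem result (ρ : ℝ) :
    (∃ L₀ : ℕ, ∀ L : ℕ, L₀ ≤ L → GoodRange {n : ℤ | (L : ℤ) ≤ n ∧ (n : ℝ) ≤ ρ * L}) ↔ ρ < 2 := by
  refine ⟨fun ⟨L0, h⟩ => ?_, good_of_lt_two ρ⟩
  by_contra hρ
  have h0 : (0 : ℝ) ≤ (2 * L0 + 1 : ℕ) := Nat.cast_nonneg _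
  have h1 := mul_le_mul_of_nonneg_right (not_lt.1 hρ) h0
  refine not_good (2 * L0 + 1) (odd_two_mul_add_one L0) ?_ ?_ (h (2 * L0 + 1) (by omega))
  refine ⟨le_rfl, ?_⟩
  swap
  refine ⟨by omega, ?_⟩
  swap
  · rw [Int.cast_natCast]; linarith
  · rw [Int.cast_mul, Int.cast_natCast]; exact_mod_cast h1

end Pool.Agent.Results.MP_20b97f_co.RatioTwo
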