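import Pool.Agent.P.MP_20b97f_co.Spin.Local
import Pool.Agent.P.MP_20b97f_co.Veblen

set_option autoImplicit false

namespace Pool.Agent.Results.MP_20b97f_co.TwoFour

open Finset Pool.Agent.P.MP_20b97f_co

/-- Let `G` be a finite multigraph whose edge `e` has tail `t e` and head `h e`, and let `D` be an
even subgraph. If the number of nowhere-zero `ℤ/24`-flows of `G / D` is not divisible by 36, then
the weighting that is 2 on `D` and 4 elsewhere has a circuit cover. -/
theorem result (V E : Type) [Fintype V] [DecidableEq V] [Fintype E] [DecidableEq E]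
    (t h : E → V) (D : Finset E)
    (hD : ∀ v, Even ((D.filter fun e => t e = v).card + (D.filter fun e => h e = v).card))
    (hF : ¬ 36 ∣ Nat.card {φ : E → ZMod 24 // (∀ e, φ e = 0 ↔ e ∈ D) ∧
      ∀ X : Finset V, (∀ e ∈ D, t e ∈ X ↔ h e ∈ X) →
        ∑ e with t e ∈ X, φ e = ∑ e with h e ∈ X, φ e}) :
    InIntCone (fun e => s(t e, h e)) (fun e => if e ∈ D then 2 else 4) := by
  let G : Pool.Agent.Flows.MG V E := ⟨fun e b => if b then h e else t e⟩
  have h1 := Spin.cov_two_four G D hD hF
  have h2 : (toMG fun e => s(t e, h e)).cut = G.cut := by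
    funext X
    ext e
    have := ends_eq (fun e => s(t e, h e)) e true
    simp only [Pool.Agent.Flows.MG.mem_cut]
    rcases Sym2.eq_iff.1 this with ⟨a, b⟩ | ⟨a, b⟩ <;> simp only [Bool.not_true] at a b <;>
      rw [← a, ← b]
    · simp [G]
    · simp [G, iff_comm]
  apply intCone_of_cov
  simpa only [Pool.Agent.Flows.MG.Cov, Pool.Agent.Flows.MG.IsFlow, h2] using h1

end Pool.Agent.Results.MP_20b97f_co.TwoFour
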